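import Mathlib

/-! # A7: the numerical contradiction -/

namespace Pool.Agent.H1.DL

theorem no_sequence {u : ℕ → ℝ} {g : ℝ} (hg : 0 < g) {k₀ : ℕ} (hu1 : ∀ k, u k ≤ 1)
    (hrec : ∀ k, k₀ ≤ k → u (k + 1) ≤ 2 * Real.exp (-0.38 * (k : ℝ) ^ 3) +
      Real.exp (-g * (k : ℝ) ^ 3) * u (k - 1))
    (hlow : ∀ k, k₀ ≤ k → Real.exp (-0.35 * (k : ℝ) ^ 3) ≤ u k) : False := by
  -- comparison of the two exponentials
  have hcmp : ∀ k : ℕ, 50 ≤ k →
      2 * Real.exp (-0.38 * (k : ℝ) ^ 3) ≤ 1 / 2 * Real.exp (-0.35 * ((k + 1 : ℕ) : ℝ) ^ 3) := by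
    intro k hk
    have hk' : (50 : ℝ) ≤ k := by exact_mod_cast hk
    have hlog : Real.exp (2 : ℝ) ≥ 4 := by
      have h1 : (2 : ℝ) ≤ Real.exp 1 := by
        have := Real.add_one_le_exp (1 : ℝ)
        linarith
      have h2 : Real.exp (2 : ℝ) = Real.exp 1 * Real.exp 1 := by
        rw [← Real.exp_add]; norm_num
      nlinarith
    have hpoly : 2 + -0.38 * (k : ℝ) ^ 3 ≤ -0.35 * ((k + 1 : ℕ) : ℝ) ^ 3 := by
      push_cast
      nlinarith [mul_nonneg (by linarith : (0:ℝ) ≤ k - 50) (by positivity : (0:ℝ) ≤ (k:ℝ) ^ 2),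
        mul_nonneg (by linarith : (0:ℝ) ≤ k - 50) (by linarith : (0:ℝ) ≤ (k:ℝ))]
    have h3 : Real.exp (2 + -0.38 * (k : ℝ) ^ 3) ≤ Real.exp (-0.35 * ((k + 1 : ℕ) : ℝ) ^ 3) :=
      Real.exp_le_exp.2 hpoly
    rw [Real.exp_add] at h3
    have h4 : (0:ℝ) < Real.exp (-0.38 * (k : ℝ) ^ 3) := Real.exp_pos _
    nlinarith
  set K : ℕ := k₀ + 51 with hK
  -- the two step recursion
  have hstep : ∀ m : ℕ, u (K + 2 * (m + 1)) ≤
      2 * Real.exp (-g * ((K + 2 * m + 1 : ℕ) : ℝ) ^ 3) * u (K + 2 * m) := by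
    intro m
    have h1 := hrec (K + 2 * m + 1) (by omega)
    have h2 := hcmp (K + 2 * m + 1) (by omega)
    have h3 := hlow (K + 2 * m + 1 + 1) (by omega)
    have e1 : K + 2 * m + 1 - 1 = K + 2 * m := by omega
    have e2 : K + 2 * (m + 1) = K + 2 * m + 1 + 1 := by ring
    rw [e1] at h1
    rw [e2]
    linarith
  have hpos : ∀ m : ℕ, 0 < u (K + 2 * m) := fun m =>
    lt_of_lt_of_le (Real.exp_pos _) (hlow (K + 2 * m) (by omega))
  have hind : ∀ m : ℕ, u (K + 2 * m) ≤ Real.exp ((m : ℝ) - g * (m : ℝ) ^ 4) := by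
    intro m
    induction m with
    | zero => simpa using hu1 K
    | succ m ih =>
      have h1 := hstep m
      have h2 : Real.exp (-g * ((K + 2 * m + 1 : ℕ) : ℝ) ^ 3) ≤
          Real.exp (-g * (2 * (m : ℝ) + 1) ^ 3) := by
        apply Real.exp_le_exp.2
        have h5 : (2 * (m : ℝ) + 1) ^ 3 ≤ ((K + 2 * m + 1 : ℕ) : ℝ) ^ 3 := by
          apply pow_le_pow_left₀ (by positivity)
          push_cast
          have : (0:ℝ) ≤ (K : ℝ) := by positivity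
          linarith
        nlinarith
      have h3 : (2 : ℝ) ≤ Real.exp 1 := by
        have := Real.add_one_le_exp (1 : ℝ)
        linarith
      have h4 : 2 * Real.exp (-g * ((K + 2 * m + 1 : ℕ) : ℝ) ^ 3) * u (K + 2 * m) ≤
          Real.exp 1 * Real.exp (-g * (2 * (m : ℝ) + 1) ^ 3) *
            Real.exp ((m : ℝ) - g * (m : ℝ) ^ 4) := by
        apply mul_le_mul _ ih (hpos m).le (by positivity)
        exact mul_le_mul h3 h2 (Real.exp_pos _).le (Real.exp_pos _).le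
      refine h1.trans (h4.trans ?_)
      rw [← Real.exp_add, ← Real.exp_add]
      apply Real.exp_le_exp.2
      push_cast
      have hm : (0:ℝ) ≤ (m : ℝ) := by positivity
      have h6 : ((m : ℝ) + 1) ^ 4 ≤ (2 * (m : ℝ) + 1) ^ 3 + (m : ℝ) ^ 4 := by
        nlinarith [mul_nonneg hm hm, mul_nonneg hm (mul_nonneg hm hm)]
      nlinarith
  obtain ⟨m, hm⟩ : ∃ m : ℕ, max (K : ℝ) (11 / g) + 1 < m := exists_nat_gt _
  have hm1 : (K : ℝ) ≤ m := by
    have := le_max_left (K : ℝ) (11 / g)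
    linarith
  have hm2 : 11 / g < m := by
    have := le_max_right (K : ℝ) (11 / g)
    linarith
  have hm3 : (1 : ℝ) ≤ m := by
    have : (0:ℝ) < 11 / g := by positivity
    have := le_max_right (K : ℝ) (11 / g)
    linarith
  have h1 := (hlow (K + 2 * m) (by omega)).trans (hind m)
  have h2 := Real.exp_le_exp.1 h1
  have h3 : ((K + 2 * m : ℕ) : ℝ) ^ 3 ≤ 27 * (m : ℝ) ^ 3 := by
    have : ((K + 2 * m : ℕ) : ℝ) ≤ 3 * m := by
      push_cast; linarith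
    calc ((K + 2 * m : ℕ) : ℝ) ^ 3 ≤ (3 * (m : ℝ)) ^ 3 :=
          pow_le_pow_left₀ (by positivity) this 3
      _ = 27 * (m : ℝ) ^ 3 := by ring
  have h4 : 11 < g * m := by
    have := (div_lt_iff₀ hg).1 hm2
    linarith
  have h5 : (m : ℝ) ≤ (m : ℝ) ^ 3 := by
    nlinarith [mul_nonneg (by linarith : (0:ℝ) ≤ (m:ℝ) - 1) (by positivity : (0:ℝ) ≤ (m:ℝ) ^ 2),
      mul_nonneg (by linarith : (0:ℝ) ≤ (m:ℝ) - 1) (by positivity : (0:ℝ) ≤ (m:ℝ))]
  have h6 : 0 < (m : ℝ) ^ 3 := by positivity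
  have h7 : g * (m : ℝ) ^ 4 = (g * m) * (m : ℝ) ^ 3 := by ring
  rw [h7] at h2
  nlinarith [mul_lt_mul_of_pos_right h4 h6]

end Pool.Agent.H1.DL
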